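import Pool.Agent.Helper55.CF.Goals

set_option autoImplicit false

/-! # Countably many nonzero polynomials have a common non-zero -/

namespace Pool.Agent.Helper82.CF

open CF55

theorem avoid_aux (m : ℕ) : ∀ p : ℕ → MvPolynomial (Fin m) ℂ, (∀ n, p n ≠ 0) →
    ∃ w : Fin m → ℂ, ∀ n, MvPolynomial.eval w (p n) ≠ 0 := by
  induction m with
  | zero =>
    intro p hp
    refine ⟨fun i => i.elim0, fun n h => hp n ?_⟩
    obtain ⟨a, ha⟩ := MvPolynomial.C_surjective (Fin 0) (p n)
    rw [← ha] at h ⊢
    rw [MvPolynomial.eval_C] at h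
    rw [h, MvPolynomial.C_0]
  | succ m ih =>
    intro p hp
    have hq : ∀ n, MvPolynomial.finSuccEquiv ℂ m (p n) ≠ 0 := by
      intro n h
      exact hp n ((MvPolynomial.finSuccEquiv ℂ m).injective (by rw [h, map_zero]))
    obtain ⟨y, hy⟩ := ih (fun n => (MvPolynomial.finSuccEquiv ℂ m (p n)).leadingCoeff)
      (fun n => Polynomial.leadingCoeff_ne_zero.mpr (hq n))
    have hne : ∀ n, Polynomial.map (MvPolynomial.eval y) (MvPolynomial.finSuccEquiv ℂ m (p n)) ≠ 0 := by
      intro n h
      have h1 := congrArg (fun r : Polynomial ℂ =>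
        r.coeff (MvPolynomial.finSuccEquiv ℂ m (p n)).natDegree) h
      simp only [Polynomial.coeff_map, Polynomial.coeff_zero] at h1
      exact hy n h1
    have hcount : (⋃ n, {z : ℂ | (Polynomial.map (MvPolynomial.eval y)
        (MvPolynomial.finSuccEquiv ℂ m (p n))).IsRoot z}).Countable := by
      apply Set.countable_iUnion
      intro n
      exact (Polynomial.finite_setOfPred_isRoot (hne n)).countable
    obtain ⟨z, hz⟩ : ∃ z : ℂ, z ∉ (⋃ n, {z : ℂ | (Polynomial.map (MvPolynomial.eval y)
        (MvPolynomial.finSuccEquiv ℂ m (p n))).IsRoot z}) := by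
      by_contra hcon
      push Not at hcon
      apply not_countable_complex
      have : (Set.univ : Set ℂ) ⊆ _ := fun z _ => hcon z
      exact hcount.mono this
    refine ⟨Fin.cons z y, fun n h => hz ?_⟩
    rw [MvPolynomial.eval_eq_eval_mv_eval'] at h
    exact Set.mem_iUnion.mpr ⟨n, h⟩

theorem stmtAVOID : G_AVOID := fun p hp => avoid_aux 6 p hp

end Pool.Agent.Helper82.CF
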