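import Pool.Agent.Helper55.CF.Goals

set_option autoImplicit false

/-! # Cubic forms depending on at most four variables -/

namespace Pool.Agent.Helper82.CF

open CF55

theorem extend_li {k : ℕ} (v : Fin k → V) (hv : LinearIndependent ℂ v) (K : Submodule ℂ V)
    (hK : k < Module.finrank ℂ K) : ∃ w ∈ K, LinearIndependent ℂ (Fin.cons w v : Fin (k + 1) → V) := by
  have h1 : Module.finrank ℂ (Submodule.span ℂ (Set.range v)) = k := by
    rw [finrank_span_eq_card hv, Fintype.card_fin]
  have h2 : ¬ K ≤ Submodule.span ℂ (Set.range v) := by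
    intro h
    have := Submodule.finrank_mono h
    omega
  obtain ⟨w, hw, hw'⟩ := SetLike.not_le_iff_exists.mp h2
  exact ⟨w, hw, linearIndependent_finCons.mpr ⟨hv, hw'⟩⟩

theorem finrank_ker_five (φ : V →ₗ[ℂ] ℂ) (hφ : φ ≠ 0) : Module.finrank ℂ (LinearMap.ker φ) = 5 := by
  have h := Module.Dual.finrank_ker_add_one_of_ne_zero (f := φ) hφ
  rw [Module.finrank_fin_fun] at h
  omega

theorem stmtTK (hC : G_CUBE) : G_TK := by
  intro T hS hT
  obtain ⟨n₀, n₁, hli, h0, h1⟩ := hT
  by_cases hcase : ∃ u, T u u u = 0 ∧ ∃ v, T u u v ≠ 0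
  · right
    left
    obtain ⟨u, hu, v, hv⟩ := hcase
    have hφ : (T u u : V →ₗ[ℂ] ℂ) ≠ 0 := by
      intro h
      apply hv
      rw [h]
      rfl
    have hk0 : T u u n₀ = 0 := by rw [hS.s23, hS.s12]; exact h0 _ _
    have hk1 : T u u n₁ = 0 := by rw [hS.s23, hS.s12]; exact h1 _ _
    have hnu : u ∉ Submodule.span ℂ (Set.range ![n₀, n₁]) := by
      intro h
      rw [Matrix.range_cons, Matrix.range_cons, Matrix.range_empty, Set.union_empty,
        Set.singleton_union, Submodule.mem_span_pair] at h
      obtain ⟨a, b, hab⟩ := h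
      apply hv
      have hT0 : ∀ x y, T u x y = 0 := by
        intro x y
        rw [← hab, map_add, map_smul, map_smul, LinearMap.add_apply, LinearMap.add_apply,
          LinearMap.smul_apply, LinearMap.smul_apply, LinearMap.smul_apply, LinearMap.smul_apply,
          h0, h1, smul_zero, smul_zero, add_zero]
      exact hT0 u v
    have hli3 : LinearIndependent ℂ (Fin.cons u ![n₀, n₁] : Fin 3 → V) :=
      linearIndependent_finCons.mpr ⟨hli, hnu⟩
    have hdim := finrank_ker_five (T u u) hφ
    obtain ⟨z₃, hz₃, hli4⟩ := extend_li _ hli3 (LinearMap.ker (T u u)) (by omega)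
    obtain ⟨z₂, hz₂, hli5⟩ := extend_li _ hli4 (LinearMap.ker (T u u)) (by omega)
    have hz1 : (T u u) ((1 / 3 / T u u v) • v) = 1 / 3 := by
      rw [map_smul, smul_eq_mul]
      field_simp
    have hz1' : ((1 / 3 / T u u v) • v) ∉ Submodule.span ℂ (Set.range
        (Fin.cons z₂ (Fin.cons z₃ (Fin.cons u ![n₀, n₁] : Fin 3 → V) : Fin 4 → V) : Fin 5 → V)) := by
      intro h
      have hle : Submodule.span ℂ (Set.range
        (Fin.cons z₂ (Fin.cons z₃ (Fin.cons u ![n₀, n₁] : Fin 3 → V) : Fin 4 → V) : Fin 5 → V)) ≤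
          LinearMap.ker (T u u) := by
        rw [Submodule.span_le]
        rintro _ ⟨i, rfl⟩
        rw [SetLike.mem_coe, LinearMap.mem_ker]
        fin_cases i
        · exact hz₂
        · exact hz₃
        · exact hu
        · exact hk0
        · exact hk1
      have := hle h
      rw [LinearMap.mem_ker, hz1] at this
      norm_num at this
    have hli6 := linearIndependent_finCons.mpr ⟨hli5, hz1'⟩
    set z₁ : V := (1 / 3 / T u u v) • v with hz₁
    refine ⟨![n₀, u, n₁, z₁, z₂, z₃], ?_⟩
    refine ⟨?_, h0, h1, hu, hz1, hz₂, hz₃⟩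
    have hσ : Function.Injective (![4, 3, 5, 0, 1, 2] : Fin 6 → Fin 6) := by decide
    have hc6 := hli6.comp _ hσ
    have heq : (![n₀, u, n₁, z₁, z₂, z₃] : Fin 6 → V) = (Fin.cons z₁ (Fin.cons z₂ (Fin.cons z₃
        (Fin.cons u ![n₀, n₁] : Fin 3 → V) : Fin 4 → V) : Fin 5 → V) : Fin 6 → V) ∘
        ![4, 3, 5, 0, 1, 2] := by
      funext i
      fin_cases i <;> rfl
    rw [heq]
    exact hc6
  · push Not at hcase
    obtain ⟨l, hl⟩ := hC T ⊤ hS (fun u _ hu v _ => hcase u hu v)
    by_cases hl0 : l = 0
    · left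
      ext x y z
      simp [hl, hl0]
    · right
      right
      obtain ⟨v, hv⟩ : ∃ v, l v ≠ 0 := by
        by_contra hcon
        push Not at hcon
        exact hl0 (LinearMap.ext hcon)
      have hdim := finrank_ker_five l hl0
      let b := Module.finBasisOfFinrankEq ℂ (LinearMap.ker l) hdim
      have hbli : LinearIndependent ℂ (fun i => ((b i : LinearMap.ker l) : V)) :=
        b.linearIndependent.map' (LinearMap.ker l).subtype (Submodule.ker_subtype _)
      have hv' : v ∉ Submodule.span ℂ (Set.range (fun i => ((b i : LinearMap.ker l) : V))) := by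
        intro h
        have hle : Submodule.span ℂ (Set.range (fun i => ((b i : LinearMap.ker l) : V))) ≤
            LinearMap.ker l := by
          rw [Submodule.span_le]
          rintro _ ⟨i, rfl⟩
          exact (b i).2
        exact hv (hle h)
      have hli6 := linearIndependent_finCons.mpr ⟨hbli, hv'⟩
      have hσ : Function.Injective (![1, 0, 2, 3, 4, 5] : Fin 6 → Fin 6) := by decide
      have hcomp := hli6.comp _ hσ
      refine ⟨_, hcomp, ?_, ?_⟩
      · intro a c d hacd
        rw [hl _ trivial _ trivial _ trivial]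
        have hz : ∀ i : Fin 6, i ≠ 1 → l (((Fin.cons v (fun i => ((b i : LinearMap.ker l) : V)) :
            Fin 6 → V) ∘ ![1, 0, 2, 3, 4, 5]) i) = 0 := by
          intro i hi
          fin_cases i
          · exact (b 0).2
          · exact absurd rfl hi
          · exact (b 1).2
          · exact (b 2).2
          · exact (b 3).2
          · exact (b 4).2
        by_cases ha : a = 1
        · by_cases hc : c = 1
          · have hd : d ≠ 1 := fun hd => hacd ⟨ha, hc, hd⟩
            rw [hz d hd, mul_zero]
          · rw [hz c hc, mul_zero, zero_mul]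
        · rw [hz a ha, zero_mul, zero_mul]
      · rw [hl _ trivial _ trivial _ trivial]
        exact mul_ne_zero (mul_ne_zero hv hv) hv

end Pool.Agent.Helper82.CF
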